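import Pool.Agent.Lib.H69.Formation.Quasi

namespace Pool.Agent.Lib.H69.Formation.Old.Classification

open Pool.Agent.H69

/-- All subformations of a formation `F` of finite groups are closed under normal subgroups if
and only if `F` satisfies four conditions on its single members. -/
theorem result (F : Formation) :
    (∀ H : Formation, H.Sub F → H.NormallyClosed) ↔
      (CondAbelian F ∧ CondTower F ∧ CondQuasisimple F ∧ CondRest F) :=
  classification' F

end Pool.Agent.Lib.H69.Formation.Old.Classification
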